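import Pool.Agent.W492.VN.Lift

/-!
# Voevodsky's conjecture and smash nilpotence in weights `≥ 0`
-/

set_option linter.unusedSectionVars false
set_option linter.style.haveILetI false

open CategoryTheory Limits MonoidalCategory Triangulated Pretriangulated ZeroObject

namespace Pool.Agent.W492.VN

open Pool.Agent.W492.MT (tpow tr)

open Pool.Agent.W492.TS Pool.Agent.W492.PC

open Pool.Agent.W492.KC (HomTriv HomEqNum acyclic_of_homTriv_id Deg Ret Orth)

universe v u v' u'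

section
variable {T : Type u} [Category.{v} T] [HasZeroObject T] [HasShift T ℤ] [Preadditive T]
  [∀ n : ℤ, (shiftFunctor T n).Additive] [Pretriangulated T] [IsTriangulated T]
  {𝒜 : Type u'} [Category.{v'} 𝒜] [Abelian 𝒜] {H : T ⥤ 𝒜} [H.IsHomological]
  {𝒞 : ObjectProperty T}

theorem shift_shift_eq {X Y : T} (f : X ⟶ Y) (a i c : ℤ) (h : a + i = c) :
    (f⟦a⟧')⟦i⟧' = (shiftIso X a i c h).hom ≫ f⟦c⟧' ≫ (shiftIso Y a i c h).inv := by
  have h1 : (f⟦a⟧')⟦i⟧' ≫ (shiftIso Y a i c h).hom = (shiftIso X a i c h).hom ≫ f⟦c⟧' :=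
    (shiftFunctorAdd' T a i c h).inv.naturality f
  rw [← Category.assoc, ← h1, Category.assoc, Iso.hom_inv_id, Category.comp_id]

theorem HomTriv.shift {X Y : T} {f : X ⟶ Y} (hf : HomTriv H f) (a : ℤ) :
    HomTriv H (f⟦a⟧') := fun i => by
  rw [shift_shift_eq f a i _ rfl, H.map_comp, H.map_comp, hf, zero_comp, comp_zero]

theorem HomTriv.unshift {X Y : T} {f : X ⟶ Y} (a : ℤ) (hf : HomTriv H (f⟦a⟧')) :
    HomTriv H f := fun c => by
  have h1 := hf (c - a)
  rw [shift_shift_eq f a (c - a) c (by ring)] at h1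
  rw [H.map_comp, H.map_comp] at h1
  have h2 : H.map (f⟦c⟧') ≫ H.map (shiftIso Y a (c - a) c (by ring)).inv = 0 := by
    rw [← cancel_epi (H.map (shiftIso X a (c - a) c (by ring)).hom), h1, comp_zero]
  rw [← cancel_mono (H.map (shiftIso Y a (c - a) c (by ring)).inv), h2, zero_comp]

theorem hom_unit_zero [MonoidalCategory T] (ho : Orth 𝒞) (h1 : 𝒞 (𝟙_ T)) {l : List ℤ}
    (hl : ∀ m ∈ l, 0 < m) {M : T} (hM : Filt (Deg 𝒞) l M) (f : 𝟙_ T ⟶ M) : f = 0 := by
  refine Filt.of_forall (P := fun M => ∀ f : 𝟙_ T ⟶ M, f = 0) ?_ ?_ ?_ hM f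
  · intro X hX f
    exact hX.eq_of_tgt _ _
  · intro X Y Z f g h hT hX hZ y
    obtain ⟨x, hx⟩ := Triangle.coyoneda_exact₂ _ hT y (hZ _)
    rw [hx, hX x]
    exact zero_comp
  · intro m hm X hX f
    let e : X⟦-m⟧⟦m⟧ ≅ X := shiftIso X (-m) m 0 (by ring) ≪≫ (shiftFunctorZero T ℤ).app X
    rw [← cancel_mono e.inv, zero_comp]
    exact ho _ _ h1 hX m (hl m hm) _

end

variable {T : Type u} [Category.{v} T] [HasZeroObject T] [HasShift T ℤ] [Preadditive T]
  [∀ n : ℤ, (shiftFunctor T n).Additive] [Pretriangulated T] [IsTriangulated T]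
  [MonoidalCategory T] [SymmetricCategory T] [RightRigidCategory T] [MonoidalPreadditive T]
  {𝒜 : Type u'} [Category.{v'} 𝒜] [Abelian 𝒜] {H : T ⥤ 𝒜} [H.IsHomological]
  {W : ℤ → ObjectProperty 𝒜} {𝒞 : ObjectProperty T}
  {F : Type} [Field F] [CharZero F] [Linear F T] [MonoidalLinear F T]

theorem Setup.deg_pure (hS : Setup H W 𝒞 F) {n : ℤ} {X : T}
    (hX : Deg 𝒞 n X) (j : ℤ) (A : 𝒜) (hA : W (j + n + 1) A) (f : A ⟶ H.obj (X⟦j⟧)) : f = 0 := by
  rw [← cancel_mono (H.mapIso (shiftIso X (-n) (j + n) j (by ring))).inv, zero_comp]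
  exact hS.pure _ hX (j + n) A hA _

theorem Setup.exists_q (hS : Setup H W 𝒞 F) (hD : HomEqNum H 𝒞) {X M' : T}
    (hX : Deg 𝒞 0 X) (h : M' ⟶ X⟦(1 : ℤ)⟧) {l : List ℤ} (hl : l.Pairwise (· < ·))
    (hl0 : ∀ m ∈ l, 0 < m) (hM' : Filt (Deg 𝒞) l M') :
    ∃ (q : X⟦(1 : ℤ)⟧ ⟶ X⟦(1 : ℤ)⟧) (t : X⟦(1 : ℤ)⟧ ⟶ M'), 𝟙 _ - q = t ≫ h ∧
      HomTriv H (h ≫ q) := by
  have hX1 : Deg 𝒞 1 (X⟦(1 : ℤ)⟧) := Deg.shift hS.retract_mem (by norm_num) hX
  have key : (∀ m ∈ l, 2 ≤ m) → HomTriv H h := by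
    intro hl2 j
    exact hS.deg_pure hX1 j _
      (by
        have := KC.filt_weight hS.serre hS.anti hS.weight hl2 hM' j
        rwa [show j + 2 = j + 1 + 1 by ring] at this) _
  have triv : (∀ m ∈ l, 2 ≤ m) → ∃ (q : X⟦(1 : ℤ)⟧ ⟶ X⟦(1 : ℤ)⟧) (t : X⟦(1 : ℤ)⟧ ⟶ M'),
      𝟙 _ - q = t ≫ h ∧ HomTriv H (h ≫ q) := by
    intro hl2
    exact ⟨𝟙 _, 0, by rw [sub_self, zero_comp], by rw [Category.comp_id]; exact key hl2⟩
  match l, hl, hl0, hM', triv with
  | [], _, _, _, triv => exact triv (by simp)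
  | m :: l, hl, hl0, hM', triv =>
    rw [List.pairwise_cons] at hl
    by_cases hm : 2 ≤ m
    · refine triv ?_
      intro x hx
      rcases List.mem_cons.1 hx with rfl | hx
      · exact hm
      · exact hm.trans (hl.1 x hx).le
    · have hm0 := hl0 m (by simp)
      obtain rfl : m = 1 := by omega
      obtain ⟨Y, M'', y, z, w, hT, hY, hM''⟩ := hM'
      obtain ⟨u₀, hu₀⟩ := hS.exists_quasi' hD hY hX1 ((y ≫ h)⟦(-1 : ℤ)⟧')
      obtain ⟨u, rfl⟩ := exists_unshift (-1) u₀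
      have hu : HomTriv H ((y ≫ h) ≫ u ≫ (y ≫ h) - (y ≫ h)) := by
        refine HomTriv.unshift (-1) ?_
        rw [Functor.map_sub, Functor.map_comp _ (y ≫ h), Functor.map_comp _ u]
        exact hu₀
      refine ⟨𝟙 _ - u ≫ y ≫ h, u ≫ y, by rw [sub_sub_cancel, Category.assoc], ?_⟩
      intro j
      letI := Functor.ShiftSequence.tautological H ℤ
      refine zero_of_exact (hS.serre (j + 2)) (H.homologySequence_exact₂ _ hT j) ?_ ?_ _ ?_
      · exact KC.filt_weight hS.serre hS.anti hS.weight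
          (fun x hx => by have := hl.1 x hx; omega) hM'' j
      · intro A hA f
        exact hS.deg_pure hX1 j A (by rwa [show j + 2 = j + 1 + 1 by ring] at hA) f
      · have h1 : y ≫ h ≫ (𝟙 _ - u ≫ y ≫ h) = -((y ≫ h) ≫ u ≫ (y ≫ h) - (y ≫ h)) := by
          simp only [Preadditive.comp_sub, Category.comp_id, Category.assoc, neg_sub]
        have h2 := (KC.HomTriv.neg hu) j
        rw [← h1, Functor.map_comp, Functor.map_comp] at h2
        exact h2

/-- **The lifting lemma.** -/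
theorem Setup.exists_lift (hS : Setup H W 𝒞 F) (hD : HomEqNum H 𝒞) {M : T}
    {l : List ℤ} (hl : l.Pairwise (· < ·)) (hl0 : ∀ m ∈ l, 0 ≤ m) (hM : Filt (Deg 𝒞) l M)
    (f : 𝟙_ T ⟶ M) (hf : HomTriv H f) :
    ∃ (X : T) (a : X ⟶ M) (x : 𝟙_ T ⟶ X), 𝒞 X ∧ HomTriv H x ∧ f = x ≫ a := by
  by_cases hpos : ∀ m ∈ l, 0 < m
  · refine ⟨𝟙_ T, 0, 0, hS.one_mem, KC.HomTriv.zero _ _, ?_⟩
    rw [comp_zero]
    exact hom_unit_zero hS.orth hS.one_mem hpos hM f
  · match l, hl, hl0, hM, hpos with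
    | [], _, _, _, hpos => exact absurd (by simp) hpos
    | m :: l, hl, hl0, hM, hpos =>
      rw [List.pairwise_cons] at hl
      have hm : m = 0 := by
        by_contra hm
        have hm' := hl0 m (by simp)
        apply hpos
        intro x hx
        rcases List.mem_cons.1 hx with rfl | hx
        · omega
        · have := hl.1 x hx
          omega
      subst hm
      obtain ⟨X, M', a, b, h, hT, hX, hM'⟩ := hM
      have h1 : f ≫ b = 0 := hom_unit_zero hS.orth hS.one_mem (fun x hx => hl.1 x hx) hM' _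
      obtain ⟨f', hf'⟩ : ∃ f' : 𝟙_ T ⟶ X, f = f' ≫ a := Triangle.coyoneda_exact₂ _ hT f h1
      obtain ⟨q₀, t, hq₀, hqt⟩ := hS.exists_q hD hX h hl.2 (fun x hx => hl.1 x hx) hM'
      obtain ⟨q, rfl⟩ := exists_unshift 1 q₀
      have h2 : (𝟙 X - q) ≫ a = 0 := by
        apply (shiftFunctor T (1 : ℤ)).map_injective
        have h3 : h ≫ a⟦(1 : ℤ)⟧' = 0 := comp_distTriang_mor_zero₃₁ _ hT
        rw [Functor.map_zero, Functor.map_comp, Functor.map_sub, CategoryTheory.Functor.map_id,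
          hq₀, Category.assoc, h3, comp_zero]
      have hX0 : 𝒞 X := hS.retract_mem _ _ hX
        ⟨Retract.ofIso ((shiftFunctorZero' T (-0 : ℤ) (by simp)).app X).symm⟩
      refine ⟨X, a, f' ≫ q, hX0, ?_, ?_⟩
      · intro n
        rw [Functor.map_comp, Functor.map_comp]
        letI := Functor.ShiftSequence.tautological H ℤ
        have hT' := inv_rot_of_distTriang _ hT
        refine comp_zero_of_exact (H.homologySequence_exact₂ _ hT' n) (H.map (f'⟦n⟧')) ?_ _ ?_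
        · have h3 := hf n
          rw [hf', Functor.map_comp, Functor.map_comp] at h3
          exact h3
        · let k : M'⟦(-1 : ℤ)⟧ ⟶ X := -((h⟦(-1 : ℤ)⟧') ≫
              (shiftFunctorCompIsoId T (1 : ℤ) (-1) (by norm_num)).hom.app X)
          have h4 : k ≫ q = -(((h ≫ q⟦(1 : ℤ)⟧')⟦(-1 : ℤ)⟧') ≫
                (shiftFunctorCompIsoId T (1 : ℤ) (-1) (by norm_num)).hom.app X) := by
            have h5 : (q⟦(1 : ℤ)⟧')⟦(-1 : ℤ)⟧' ≫
                (shiftFunctorCompIsoId T (1 : ℤ) (-1) (by norm_num)).hom.app X =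
                (shiftFunctorCompIsoId T (1 : ℤ) (-1) (by norm_num)).hom.app X ≫ q :=
              (shiftFunctorCompIsoId T (1 : ℤ) (-1) (by norm_num)).hom.naturality q
            rw [Functor.map_comp, Category.assoc, h5]
            change (-((h⟦(-1 : ℤ)⟧') ≫
              (shiftFunctorCompIsoId T (1 : ℤ) (-1) (by norm_num)).hom.app X)) ≫ q = _
            rw [Preadditive.neg_comp, Category.assoc]
          have h6 : HomTriv H (k ≫ q) := by
            rw [h4]
            exact ((HomTriv.shift hqt (-1)).comp_left _).neg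
          have h7 := h6 n
          rw [Functor.map_comp, Functor.map_comp] at h7
          exact h7
      · rw [hf', Category.assoc]
        have h3 : a = q ≫ a := by
          rw [Preadditive.sub_comp, Category.id_comp, sub_eq_zero] at h2
          exact h2
        rw [← h3]

end Pool.Agent.W492.VN
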