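import Pool.Agent.W492.VN.Main

/-!
# Voevodsky's conjecture and smash nilpotence in weights `≥ 0`: the equivalences
-/

set_option linter.unusedSectionVars false
set_option linter.style.haveILetI false

open CategoryTheory Limits MonoidalCategory Triangulated Pretriangulated ZeroObject

namespace Pool.Agent.W492.VN

open Pool.Agent.W492.MT (tpow tr)

open Pool.Agent.W492.TS Pool.Agent.W492.PC

open Pool.Agent.W492.KC (HomTriv HomEqNum acyclic_of_homTriv_id Deg Ret Orth)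

universe v u v' u'

section
variable {T : Type u} [Category.{v} T] [MonoidalCategory T] [SymmetricCategory T]
  [RightRigidCategory T]

/-- the transpose `𝟙 ⟶ Xᘁ` of `X ⟶ 𝟙` -/
def trp {X : T} (g : X ⟶ 𝟙_ T) : 𝟙_ T ⟶ Xᘁ := η_ X Xᘁ ≫ (g ▷ Xᘁ) ≫ (λ_ Xᘁ).hom

/-- the transpose `Xᘁ ⟶ 𝟙` of `𝟙 ⟶ X` -/
def trq {X : T} (x : 𝟙_ T ⟶ X) : Xᘁ ⟶ 𝟙_ T := (ρ_ Xᘁ).inv ≫ (Xᘁ ◁ x) ≫ ε_ X Xᘁ

theorem trp_inv {X : T} (g : X ⟶ 𝟙_ T) :
    (λ_ X).inv ≫ (trp g ▷ X) ≫ ε_ X Xᘁ = g := by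
  have h2 : (η_ X Xᘁ ▷ X) ≫ (α_ X Xᘁ X).hom ≫ (X ◁ ε_ X Xᘁ) = (λ_ X).hom ≫ (ρ_ X).inv :=
    ExactPairing.evaluation_coevaluation (X := X) (Y := Xᘁ)
  have h3 : (trp g ▷ X) ≫ ε_ X Xᘁ = (η_ X Xᘁ ▷ X) ≫ (α_ X Xᘁ X).hom ≫ (X ◁ ε_ X Xᘁ) ≫
      (g ▷ 𝟙_ T) ≫ (λ_ (𝟙_ T)).hom := by
    rw [whisker_exchange_assoc]
    simp [trp]
  rw [h3]
  slice_lhs 2 4 => rw [h2]
  simp [unitors_equal]

theorem trq_inv {X : T} (x : 𝟙_ T ⟶ X) :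
    η_ X Xᘁ ≫ (X ◁ trq x) ≫ (ρ_ X).hom = x := by
  have h2 : (η_ X Xᘁ ▷ X) ≫ (α_ X Xᘁ X).hom ≫ (X ◁ ε_ X Xᘁ) = (λ_ X).hom ≫ (ρ_ X).inv :=
    ExactPairing.evaluation_coevaluation (X := X) (Y := Xᘁ)
  have h3 : η_ X Xᘁ ≫ (X ◁ trq x) = (λ_ (𝟙_ T)).inv ≫ (𝟙_ T ◁ x) ≫ (η_ X Xᘁ ▷ X) ≫
      (α_ X Xᘁ X).hom ≫ (X ◁ ε_ X Xᘁ) := by
    rw [whisker_exchange_assoc]
    simp [trq, unitors_inv_equal]
  rw [← Category.assoc, h3]
  slice_lhs 3 5 => rw [h2]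
  simp [unitors_inv_equal]
  rw [← unitors_inv_equal, Iso.inv_hom_id_assoc]

theorem trp_comp {X : T} (g : X ⟶ 𝟙_ T) (h : Xᘁ ⟶ 𝟙_ T) :
    (η_ X Xᘁ ≫ (X ◁ h) ≫ (ρ_ X).hom) ≫ g = trp g ≫ h := by
  have h1 : (X ◁ h) ≫ (g ▷ 𝟙_ T) = (g ▷ Xᘁ) ≫ (𝟙_ T ◁ h) := whisker_exchange g h
  simp only [trp, Category.assoc]
  rw [← rightUnitor_naturality g, reassoc_of% h1, ← leftUnitor_naturality h, unitors_equal]

theorem trq_comp {X : T} (x : 𝟙_ T ⟶ X) (y : 𝟙_ T ⟶ Xᘁ) :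
    x ≫ ((λ_ X).inv ≫ (y ▷ X) ≫ ε_ X Xᘁ) = y ≫ trq x := by
  have h1 : (y ▷ 𝟙_ T) ≫ (Xᘁ ◁ x) = (𝟙_ T ◁ x) ≫ (y ▷ X) := (whisker_exchange y x).symm
  simp only [trq]
  rw [leftUnitor_inv_naturality_assoc x, ← reassoc_of% h1, rightUnitor_inv_naturality_assoc y,
    unitors_inv_equal]

end

variable {T : Type u} [Category.{v} T] [HasZeroObject T] [HasShift T ℤ] [Preadditive T]
  [∀ n : ℤ, (shiftFunctor T n).Additive] [Pretriangulated T] [IsTriangulated T]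
  [MonoidalCategory T] [SymmetricCategory T] [RightRigidCategory T] [MonoidalPreadditive T]
  {𝒜 : Type u'} [Category.{v'} 𝒜] [Abelian 𝒜] {H : T ⥤ 𝒜} [H.IsHomological]
  {W : ℤ → ObjectProperty 𝒜} {𝒞 : ObjectProperty T}
  {F : Type} [Field F] [CharZero F] [Linear F T] [MonoidalLinear F T]

theorem Setup.homTriv_of_trp (hS : Setup H W 𝒞 F) {X : T} {g : X ⟶ 𝟙_ T}
    (h : HomTriv H (trp g)) : HomTriv H g := by
  rw [← trp_inv g]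
  exact ((hS.homTriv_whiskerRight h X).comp_left _).comp_right _

theorem Setup.homTriv_of_trq (hS : Setup H W 𝒞 F) {X : T} {x : 𝟙_ T ⟶ X}
    (h : HomTriv H (trq x)) : HomTriv H x := by
  rw [← trq_inv x]
  exact ((hS.ideal X _ _ _ h).comp_left _).comp_right _

theorem Setup.homTriv_of_smashNil (hS : Setup H W 𝒞 F) {X : T} (hX : 𝒞 X) {x : 𝟙_ T ⟶ X}
    (hx : SmashNil x) : HomTriv H x := by
  obtain ⟨n, hn⟩ := hx
  exact hS.reduced X hX x n (by rw [hn]; exact KC.HomTriv.zero _ _)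

theorem Setup.homEqNum_of_voevodsky (hS : Setup H W 𝒞 F) (hV : Voevodsky 𝒞) :
    HomEqNum H 𝒞 := by
  intro X hX g hg
  by_contra hne
  simp only [not_exists, not_not] at hne
  apply hg
  refine hS.homTriv_of_trp (hS.homTriv_of_smashNil (hS.dual_mem X hX) (hV _ (hS.dual_mem X hX) _
    fun h => ?_))
  rw [← trp_comp]
  exact hne _

theorem Setup.homTriv_of_num (hS : Setup H W 𝒞 F) (hD : HomEqNum H 𝒞) {X : T} (hX : 𝒞 X)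
    {x : 𝟙_ T ⟶ X} (hx : ∀ g : X ⟶ 𝟙_ T, x ≫ g = 0) : HomTriv H x := by
  refine hS.homTriv_of_trq ?_
  by_contra hne
  obtain ⟨y, hy⟩ := hD _ (hS.dual_mem X hX) (trq x) hne
  rw [← trq_comp] at hy
  exact hy (hx _)

theorem Setup.smashNil_of_voevodsky (hS : Setup H W 𝒞 F) (hV : Voevodsky 𝒞) {M : T}
    (hM : Nonneg 𝒞 M) (f : 𝟙_ T ⟶ M) (hf : HomTriv H f) : SmashNil f := by
  have hD := hS.homEqNum_of_voevodsky hV
  obtain ⟨l, hl0, hl⟩ := exists_filt_of_nonneg hS.retract_mem hM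
  obtain ⟨l', h1, h2, h3⟩ := KC.exists_strict hS.orth hS.retract_mem hS.sum_mem
    (List.pairwise_insertionSort _ _) (Filt.sort (KC.swap_deg hS.orth) l hl)
  obtain ⟨X, a, x, hX, hx, rfl⟩ := hS.exists_lift hD h1 (fun m hm => hl0 m
    ((List.perm_insertionSort (· ≤ ·) l).subset (h2 hm))) h3 f hf
  refine (hV X hX x fun g => ?_).comp a
  exact hS.scalar_zero (hx.comp_left g)

section
variable [∀ X : T, (tensorLeft X).CommShift ℤ] [∀ X : T, (tensorLeft X).IsTriangulated]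

theorem Setup.homTriv_cone (hS : Setup H W 𝒞 F) {X C : T} {g : X ⟶ 𝟙_ T} {δ : 𝟙_ T ⟶ C}
    {k : C ⟶ X⟦(1 : ℤ)⟧} (hT : Triangle.mk g δ k ∈ distTriang T) (hg : ¬ HomTriv H g) :
    HomTriv H δ := by
  intro n
  letI := Functor.ShiftSequence.tautological H ℤ
  exact (H.homologySequence_epi_shift_map_mor₁_iff _ hT n).1 (hS.epi_unit hg n)

theorem Setup.nonneg_cone (hS : Setup H W 𝒞 F) {X C : T} (hX : 𝒞 X) {g : X ⟶ 𝟙_ T}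
    {δ : 𝟙_ T ⟶ C} {k : C ⟶ X⟦(1 : ℤ)⟧} (hT : Triangle.mk g δ k ∈ distTriang T) :
    Nonneg 𝒞 C := by
  have h1 := rot_of_distTriang _ hT
  refine nonneg_ext (Δ := (Triangle.mk g δ k).rotate) h1 (nonneg_zero hS.retract_mem hS.one_mem) ?_
  intro P hP _
  exact hP X 1 hX

theorem Setup.homEqNum_of_cone (hS : Setup H W 𝒞 F)
    (hc : ∀ (X C : T) (g : X ⟶ 𝟙_ T) (δ : 𝟙_ T ⟶ C) (k : C ⟶ X⟦(1 : ℤ)⟧),
      Triangle.mk g δ k ∈ distTriang T → 𝒞 X → ¬ HomTriv H g → SmashNil δ) :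
    HomEqNum H 𝒞 := by
  intro X hX g hg
  obtain ⟨C, δ, k, hT⟩ := distinguished_cocone_triangle g
  obtain ⟨n, hn⟩ := hc X C g δ k hT hX hg
  have h0 : 𝟙 (𝟙_ T) ≠ 0 := by
    intro h
    apply hS.unit_not_triv
    rw [h]
    exact KC.HomTriv.zero _ _
  exact split_of_dpow hT (hS.pos hX) h0 n hn

theorem Setup.tfae (hS : Setup H W 𝒞 F) :
    List.TFAE [
      Voevodsky 𝒞,
      ∀ M, Nonneg 𝒞 M → ∀ f : 𝟙_ T ⟶ M, HomTriv H f → SmashNil f,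
      (∀ X, 𝒞 X → ∀ x : 𝟙_ T ⟶ X, HomTriv H x → SmashNil x) ∧
      (∀ (X C : T) (g : X ⟶ 𝟙_ T) (δ : 𝟙_ T ⟶ C) (k : C ⟶ X⟦(1 : ℤ)⟧),
        Triangle.mk g δ k ∈ distTriang T → 𝒞 X → ¬ HomTriv H g → SmashNil δ)] := by
  tfae_have 1 → 2 := fun hV M hM f hf => hS.smashNil_of_voevodsky hV hM f hf
  tfae_have 2 → 3 := fun h => ⟨fun X hX x hx => h X (nonneg_zero hS.retract_mem hX) x hx,
    fun X C g δ k hT hX hg => h C (hS.nonneg_cone hX hT) δ (hS.homTriv_cone hT hg)⟩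
  tfae_have 3 → 1 := fun h X hX x hx =>
    h.1 X hX x (hS.homTriv_of_num (hS.homEqNum_of_cone h.2) hX hx)
  tfae_finish

end

end Pool.Agent.W492.VN
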