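import Pool.Agent.W492.VN.Defs
import Pool.Agent.W492.KC.Tower

/-!
# Semisimplicity of homological motives, modulo the morphisms zero on cohomology
-/

set_option linter.unusedSectionVars false
set_option linter.style.haveILetI false

open CategoryTheory Limits MonoidalCategory Triangulated Pretriangulated ZeroObject

namespace Pool.Agent.W492.VN

open Pool.Agent.W492.MT (tpow tr)

open Pool.Agent.W492.TS Pool.Agent.W492.PC

open Pool.Agent.W492.KC (HomTriv HomEqNum acyclic_of_homTriv_id)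

universe v u v' u'

variable {T : Type u} [Category.{v} T] [HasZeroObject T] [HasShift T ℤ] [Preadditive T]
  [∀ n : ℤ, (shiftFunctor T n).Additive] [Pretriangulated T] [IsTriangulated T]
  [MonoidalCategory T] [SymmetricCategory T] [RightRigidCategory T] [MonoidalPreadditive T]
  {𝒜 : Type u'} [Category.{v'} 𝒜] [Abelian 𝒜] {H : T ⥤ 𝒜} [H.IsHomological]
  {W : ℤ → ObjectProperty 𝒜} {𝒞 : ObjectProperty T}
  {F : Type} [Field F] [CharZero F] [Linear F T]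

theorem Setup.homTriv_whiskerRight (hS : Setup H W 𝒞 F) {Y Z : T} {f : Y ⟶ Z}
    (hf : HomTriv H f) (X : T) : HomTriv H (f ▷ X) := by
  have h1 : f ▷ X = (β_ Y X).hom ≫ (X ◁ f) ≫ (β_ X Z).hom := by
    rw [← BraidedCategory.braiding_naturality_left_assoc, SymmetricCategory.symmetry,
      Category.comp_id]
  rw [h1]
  exact ((hS.ideal _ _ _ f hf).comp_left _).comp_right _

theorem Setup.unit_not_triv (hS : Setup H W 𝒞 F) : ¬ HomTriv H (𝟙 (𝟙_ T)) := by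
  intro h
  haveI := hS.unit_simple
  apply Simple.not_isZero (H.obj (𝟙_ T))
  have e : H.obj ((𝟙_ T)⟦(0 : ℤ)⟧) ≅ H.obj (𝟙_ T) :=
    H.mapIso ((shiftFunctorZero T ℤ).app (𝟙_ T))
  exact IsZero.of_iso (acyclic_of_homTriv_id h 0) e.symm

theorem Setup.scalar_zero (hS : Setup H W 𝒞 F) {e : 𝟙_ T ⟶ 𝟙_ T} (he : HomTriv H e) :
    e = 0 := by
  obtain ⟨a, rfl⟩ := hS.scalar e
  by_cases ha : a = 0
  · rw [ha, zero_smul]
  · exfalso
    apply hS.unit_not_triv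
    have h1 : (𝟙 (𝟙_ T) : 𝟙_ T ⟶ 𝟙_ T) = (a • 𝟙 (𝟙_ T)) ≫ (a⁻¹ • 𝟙 (𝟙_ T)) := by
      rw [Linear.smul_comp, Linear.comp_smul, Category.id_comp, smul_smul,
        mul_inv_cancel₀ ha, one_smul]
    rw [h1]
    exact he.comp_left _

theorem Setup.tr_zero (hS : Setup H W 𝒞 F) {X : T} {f : X ⟶ X} (hf : HomTriv H f) :
    tr f = 0 := by
  refine hS.scalar_zero ?_
  exact ((hS.homTriv_whiskerRight hf _).comp_left _).comp_right _

theorem Setup.exists_tr (hS : Setup H W 𝒞 F) (hD : HomEqNum H 𝒞) {X Y : T} (hX : 𝒞 X)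
    (hY : 𝒞 Y) {f : X ⟶ Y} (hf : ¬ HomTriv H f) : ∃ h : Y ⟶ X, tr (h ≫ f) ≠ 0 := by
  have h1 : ¬ HomTriv H ((Yᘁ ◁ f) ≫ ε_ Y Yᘁ) := by
    intro h1
    apply hf
    have h3 : (λ_ X).inv ≫ (η_ Y Yᘁ ▷ X) ≫ (α_ Y Yᘁ X).hom ≫ (Y ◁ ((Yᘁ ◁ f) ≫ ε_ Y Yᘁ)) ≫
        (ρ_ Y).hom = f := by
      have h2 : (η_ Y Yᘁ ▷ Y) ≫ (α_ Y Yᘁ Y).hom ≫ (Y ◁ ε_ Y Yᘁ) = (λ_ Y).hom ≫ (ρ_ Y).inv :=
        ExactPairing.evaluation_coevaluation (X := Y) (Y := Yᘁ)
      rw [MonoidalCategory.whiskerLeft_comp]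
      simp only [Category.assoc]
      rw [← associator_naturality_right_assoc, ← whisker_exchange_assoc]
      slice_lhs 3 5 => rw [h2]
      simp
    rw [← h3]
    exact ((((hS.ideal Y _ _ _ h1).comp_left _).comp_right _).comp_right _).comp_right _
  obtain ⟨x, hx⟩ := hD _ (hS.tensor_mem _ _ (hS.dual_mem _ hY) hX) _ h1
  obtain ⟨h, rfl⟩ := exists_hom_of_hom x
  exact ⟨h, by rwa [comp_eq_tr] at hx⟩

theorem Setup.homTriv_unit (hS : Setup H W 𝒞 F) {X : T} {g : X ⟶ 𝟙_ T}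
    (h : H.map (g⟦(0 : ℤ)⟧') = 0) : HomTriv H g := by
  intro n
  by_cases hn : n = 0
  · subst hn
    exact h
  · exact (hS.unit_deg n hn).eq_of_tgt _ _

theorem Setup.epi_unit (hS : Setup H W 𝒞 F) {X : T} {g : X ⟶ 𝟙_ T} (h : ¬ HomTriv H g)
    (n : ℤ) : Epi (H.map (g⟦n⟧')) := by
  by_cases hn : n = 0
  · subst hn
    have h1 : H.map (g⟦(0 : ℤ)⟧') ≠ 0 := fun h0 => h (hS.homTriv_unit h0)
    haveI := hS.unit_simple
    haveI : Simple (H.obj ((𝟙_ T)⟦(0 : ℤ)⟧)) := by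
      have e : H.obj ((𝟙_ T)⟦(0 : ℤ)⟧) ≅ H.obj (𝟙_ T) :=
        H.mapIso ((shiftFunctorZero T ℤ).app (𝟙_ T))
      exact Simple.of_iso e
    exact epi_of_nonzero_to_simple h1
  · exact (hS.unit_deg n hn).epi _

section
variable [∀ X : T, (tensorLeft X).CommShift ℤ] [∀ X : T, (tensorLeft X).IsTriangulated]

theorem Setup.tpow_mem (hS : Setup H W 𝒞 F) {X : T} (hX : 𝒞 X) (a : ℕ) : 𝒞 (tpow X a) := by
  induction a with
  | zero => exact hS.one_mem
  | succ a ih => exact hS.tensor_mem _ _ hX ih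

theorem Setup.pos (hS : Setup H W 𝒞 F) {X : T} (hX : 𝒞 X) : Pos X (X⟦(1 : ℤ)⟧) := by
  intro a m f
  have h1 : 𝒞 (tpow X a ⊗ X) := hS.tensor_mem _ _ (hS.tpow_mem hX a) hX
  refine hom_zero_of_iso ?_ (hS.orth _ _ hS.one_mem h1 (1 + m) (by positivity)) f
  exact (shiftIso (tpow X a ⊗ X) 1 m (1 + m) rfl).symm ≪≫
    (shiftFunctor T (m : ℤ)).mapIso (((tensorLeft (tpow X a)).commShiftIso (1 : ℤ)).app X).symm

end

variable [MonoidalLinear F T]

/-- Jannsen's semisimplicity theorem, modulo the morphisms zero on cohomology. -/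
theorem Setup.exists_quasi (hS : Setup H W 𝒞 F) (hD : HomEqNum H 𝒞) {Z : T}
    (hZ : 𝒞 Z) (f : Z ⟶ Z) : ∃ h : Z ⟶ Z, HomTriv H (f ≫ h ≫ f - f) := by
  haveI h1 : Module.Finite F (𝟙_ T ⟶ 𝟙_ T) := by
    refine Module.Finite.of_surjective (LinearMap.toSpanSingleton F (𝟙_ T ⟶ 𝟙_ T) (𝟙 _)) ?_
    intro e
    obtain ⟨a, ha⟩ := hS.scalar e
    exact ⟨a, by rw [ha]; rfl⟩
  obtain ⟨r, b, hb⟩ := hS.finRank Z hZ
  let L : End Z →ₗ[F] (Fin r → (𝟙_ T ⟶ 𝟙_ T)) :=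
    { toFun := fun a j => tr (b j ≫ (a : Z ⟶ Z))
      map_add' := fun a a' => by
        funext j
        change tr (b j ≫ ((a : Z ⟶ Z) + a')) = _
        rw [Preadditive.comp_add, tr_add]
        rfl
      map_smul' := fun c a => by
        funext j
        change tr (b j ≫ (c • (a : Z ⟶ Z))) = _
        rw [Linear.comp_smul, tr_smul]
        rfl }
  have hL : ∀ a : End Z, L a = 0 → HomTriv H (X := Z) (Y := Z) a := by
    intro a ha
    by_contra hne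
    obtain ⟨h, hh⟩ := hS.exists_tr hD hZ hZ hne
    exact hh (hb a (fun j => congrFun ha j) h)
  let N : Ideal (End Z) :=
    { carrier := {a | HomTriv H (X := Z) (Y := Z) a}
      add_mem' := fun {a a'} h h' => KC.HomTriv.add h h'
      zero_mem' := KC.HomTriv.zero Z Z
      smul_mem' := fun c a h => KC.HomTriv.comp_left (f := (a : Z ⟶ Z)) h (c : Z ⟶ Z) }
  haveI hN2 : N.IsTwoSided := ⟨fun {a} c h => KC.HomTriv.comp_right (g := (a : Z ⟶ Z)) h (c : Z ⟶ Z)⟩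
  haveI h2 : Module.Finite F (End Z ⧸ N) := by
    have h3 : LinearMap.ker L ≤ N.restrictScalars F := fun a ha => hL a ha
    haveI : Module.Finite F (End Z ⧸ LinearMap.ker L) := by
      exact Module.Finite.equiv (L.quotKerEquivRange).symm
    have h4 : Function.Surjective (Submodule.factor h3) := Submodule.factor_surjective h3
    have h5 := Module.Finite.of_surjective (Submodule.factor h3) h4
    exact h5
  haveI h3 : IsArtinianRing (End Z ⧸ N) := IsArtinianRing.of_finite F (End Z ⧸ N)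
  have h4 : Ring.jacobson (End Z ⧸ N) = ⊥ := by
    rw [eq_bot_iff]
    intro a' ha'
    obtain ⟨a, rfl⟩ := Ideal.Quotient.mk_surjective a'
    rw [Ideal.mem_bot]
    refine Ideal.Quotient.eq_zero_iff_mem.2 ?_
    by_contra hne
    obtain ⟨h, hh⟩ := hS.exists_tr hD hZ hZ (f := (a : Z ⟶ Z)) hne
    apply hh
    let h' : End Z := h
    have h5 : Ideal.Quotient.mk N (a * h') ∈ Ring.jacobson (End Z ⧸ N) := by
      rw [map_mul]
      exact Ideal.mul_mem_right _ _ ha'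
    obtain ⟨n, hn⟩ := (IsSemiprimaryRing.isNilpotent :
      IsNilpotent (Ring.jacobson (End Z ⧸ N)))
    have h6 : (Ideal.Quotient.mk N (a * h')) ^ n ∈ (Ring.jacobson (End Z ⧸ N)) ^ n :=
      Ideal.pow_mem_pow h5 n
    rw [hn] at h6
    have h7 : (a * h') ^ n ∈ N := by
      rw [← Ideal.Quotient.eq_zero_iff_mem, map_pow]
      exact h6
    exact hS.trNil Z hZ (a * h') n h7
  haveI h5 : IsSemisimpleRing (End Z ⧸ N) := IsArtinianRing.isSemisimpleRing_iff_jacobson.2 h4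
  let f₀ : End Z := f
  let f' : End Z ⧸ N := Ideal.Quotient.mk N f₀
  obtain ⟨e, he, hI⟩ := IsSemisimpleRing.ideal_eq_span_idempotent (Ideal.span {f'})
  have h6 : f' ∈ Ideal.span {e} := hI ▸ Ideal.mem_span_singleton_self _
  have h7 : e ∈ Ideal.span {f'} := hI ▸ Ideal.mem_span_singleton_self _
  obtain ⟨b', hb'⟩ := Ideal.mem_span_singleton'.1 h6
  obtain ⟨a', ha'⟩ := Ideal.mem_span_singleton'.1 h7
  obtain ⟨h, rfl⟩ := Ideal.Quotient.mk_surjective a'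
  refine ⟨(h : Z ⟶ Z), ?_⟩
  have h8 : f' * (Ideal.Quotient.mk N h * f') = f' := by
    rw [ha', ← hb', mul_assoc, he.eq]
  have h9 : Ideal.Quotient.mk N (f₀ * (h * f₀)) = Ideal.Quotient.mk N f₀ := by
    rw [map_mul, map_mul]
    exact h8
  have h10 : f₀ * (h * f₀) - f₀ ∈ N := Ideal.Quotient.eq.1 h9
  have h11 : HomTriv H ((f ≫ h) ≫ f - f) := h10
  rwa [Category.assoc] at h11

theorem Setup.exists_quasi' (hS : Setup H W 𝒞 F) (hD : HomEqNum H 𝒞)
    {X Y : T} (hX : 𝒞 X) (hY : 𝒞 Y) (f : X ⟶ Y) :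
    ∃ h : Y ⟶ X, HomTriv H (f ≫ h ≫ f - f) := by
  obtain ⟨h, hh⟩ := hS.exists_quasi hD (hS.sum_mem _ _ hX hY) (biprod.fst ≫ f ≫ biprod.inr)
  refine ⟨biprod.inr ≫ h ≫ biprod.fst, ?_⟩
  have h1 : f ≫ (biprod.inr ≫ h ≫ biprod.fst) ≫ f - f =
      (biprod.inl : X ⟶ X ⊞ Y) ≫ ((biprod.fst ≫ f ≫ biprod.inr) ≫ h ≫
        (biprod.fst ≫ f ≫ biprod.inr) - (biprod.fst ≫ f ≫ biprod.inr)) ≫
        (biprod.snd : X ⊞ Y ⟶ Y) := by
    simp
  rw [h1]
  exact (hh.comp_left _).comp_right _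

end Pool.Agent.W492.VN
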