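import Pool.Agent.W492.KC.Defs
import Pool.Agent.W492.PC.Main

/-!
# Definitions: smash nilpotence of cycles and of morphisms of mixed motives of weights `≥ 0`
-/

set_option linter.unusedSectionVars false

open CategoryTheory Limits MonoidalCategory Triangulated Pretriangulated

namespace Pool.Agent.W492.VN

open Pool.Agent.W492.MT (tpow tr)

open Pool.Agent.W492.KC (HomTriv)

open Pool.Agent.W492.PC (dpow)

universe v u v' u'

section
variable {T : Type u} [Category.{v} T] [MonoidalCategory T]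

/-- `x : 𝟙 ⟶ X` is smash nilpotent : some tensor power of `x` is zero. -/
def SmashNil [Preadditive T] {X : T} (x : 𝟙_ T ⟶ X) : Prop := ∃ n, dpow x n = 0

end

variable {T : Type u} [Category.{v} T] [HasZeroObject T] [HasShift T ℤ] [Preadditive T]
  [∀ n : ℤ, (shiftFunctor T n).Additive] [Pretriangulated T]

/-- The objects of weights `≥ 0` : the smallest class of objects of `T` which contains the objects
`X⟦n⟧` with `X` in `𝒞` and `n ≥ 0`, and is closed under extensions. -/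
def Nonneg (𝒞 : ObjectProperty T) : ObjectProperty T := fun M =>
  ∀ P : ObjectProperty T, (∀ (X : T) (n : ℕ), 𝒞 X → P (X⟦(n : ℤ)⟧)) →
    (∀ Δ ∈ distTriang T, P Δ.obj₁ → P Δ.obj₃ → P Δ.obj₂) → P M

variable [MonoidalCategory T] [SymmetricCategory T] [RightRigidCategory T]
  {𝒜 : Type u'} [Category.{v'} 𝒜] [Abelian 𝒜] (H : T ⥤ 𝒜)
  (W : ℤ → ObjectProperty 𝒜) (𝒞 : ObjectProperty T)

/-- The formal properties of the category `T` of constructible motives, of its (mixed Hodge)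
cohomology `H^n = H(-⟦n⟧)`, of the class `W k` of the objects of the abelian category `𝒜` with
weights `≥ k`, and of the class `𝒞` of Chow motives. -/
structure Setup (F : Type) [Field F] [Linear F T] : Prop where
  /-- the endomorphisms of the unit of `T` are scalars -/
  scalar : ∀ e : 𝟙_ T ⟶ 𝟙_ T, ∃ a : F, e = a • 𝟙 _
  one_mem : 𝒞 (𝟙_ T)
  tensor_mem : ∀ X Y, 𝒞 X → 𝒞 Y → 𝒞 (X ⊗ Y)
  dual_mem : ∀ X, 𝒞 X → 𝒞 Xᘁ
  sum_mem : ∀ X Y, 𝒞 X → 𝒞 Y → 𝒞 (X ⊞ Y)
  retract_mem : ∀ X Y, 𝒞 Y → Nonempty (Retract X Y) → 𝒞 X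
  /-- orthogonality -/
  orth : ∀ X Y, 𝒞 X → 𝒞 Y → ∀ m : ℤ, 0 < m → ∀ f : X ⟶ Y⟦m⟧, f = 0
  /-- the cohomology of the unit is a simple object in degree `0` -/
  unit_simple : Simple (H.obj (𝟙_ T))
  unit_deg : ∀ n : ℤ, n ≠ 0 → IsZero (H.obj ((𝟙_ T)⟦n⟧))
  /-- the objects with weights `≥ k` form a Serre class, decreasing with `k` -/
  serre : ∀ k, (W k).IsSerreClass
  anti : ∀ k, W (k + 1) ≤ W k
  /-- the cohomology in degree `n` of a Chow motive is pure of weight `n` -/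
  weight : ∀ X, 𝒞 X → ∀ n : ℤ, W n (H.obj (X⟦n⟧))
  pure : ∀ X, 𝒞 X → ∀ (n : ℤ) (A : 𝒜), W (n + 1) A → ∀ f : A ⟶ H.obj (X⟦n⟧), f = 0
  /-- Kuenneth formula : the morphisms zero on cohomology form a tensor ideal -/
  ideal : ∀ (X Y Z : T) (f : Y ⟶ Z), HomTriv H f → HomTriv H (X ◁ f)
  /-- Kuenneth formula : a cycle is zero on cohomology if one of its tensor powers is -/
  reduced : ∀ X, 𝒞 X → ∀ (x : 𝟙_ T ⟶ X) (n : ℕ), HomTriv H (dpow x n) → HomTriv H x
  /-- the trace form on `End X` has finite rank -/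
  finRank : ∀ X, 𝒞 X → ∃ (r : ℕ) (b : Fin r → (X ⟶ X)), ∀ a : X ⟶ X,
    (∀ j, tr (b j ≫ a) = 0) → ∀ c : X ⟶ X, tr (c ≫ a) = 0
  /-- an endomorphism which is nilpotent on the cohomology has trace `0` -/
  trNil : ∀ X, 𝒞 X → ∀ (c : End X) (n : ℕ), HomTriv H (X := X) (Y := X) (c ^ n) →
    tr (X := X) c = 0

/-- Voevodsky's conjecture : numerically trivial cycles are smash nilpotent. -/
def Voevodsky : Prop :=
  ∀ X, 𝒞 X → ∀ x : 𝟙_ T ⟶ X, (∀ g : X ⟶ 𝟙_ T, x ≫ g = 0) → SmashNil x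

end Pool.Agent.W492.VN
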