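import Pool.Agent.W492.VN.Basic

/-!
# Lifting morphisms to objects of weights `≥ 0`
-/

set_option linter.unusedSectionVars false
set_option linter.style.haveILetI false

open CategoryTheory Limits MonoidalCategory Triangulated Pretriangulated ZeroObject

namespace Pool.Agent.W492.VN

open Pool.Agent.W492.MT (tpow tr)

open Pool.Agent.W492.TS Pool.Agent.W492.PC

open Pool.Agent.W492.KC (HomTriv HomEqNum acyclic_of_homTriv_id Deg Ret)

universe v u v' u'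

section
variable {T : Type u} [Category.{v} T] [MonoidalCategory T]

/-- the tensor powers of a morphism -/
def tmap {X Y : T} (g : X ⟶ Y) : ∀ n : ℕ, tpow X n ⟶ tpow Y n
  | 0 => 𝟙 _
  | n + 1 => g ⊗ₘ tmap g n

theorem dpow_comp {X Y : T} (x : 𝟙_ T ⟶ X) (g : X ⟶ Y) (n : ℕ) :
    dpow (x ≫ g) n = dpow x n ≫ tmap g n := by
  induction n with
  | zero => exact (Category.comp_id _).symm
  | succ n ih =>
    change (λ_ (𝟙_ T)).inv ≫ ((x ≫ g) ⊗ₘ dpow (x ≫ g) n) =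
      ((λ_ (𝟙_ T)).inv ≫ (x ⊗ₘ dpow x n)) ≫ (g ⊗ₘ tmap g n)
    rw [ih, Category.assoc, MonoidalCategory.tensorHom_comp_tensorHom]

theorem SmashNil.comp [Preadditive T] {X Y : T} {x : 𝟙_ T ⟶ X} (hx : SmashNil x) (g : X ⟶ Y) :
    SmashNil (x ≫ g) := by
  obtain ⟨n, hn⟩ := hx
  exact ⟨n, by rw [dpow_comp, hn, zero_comp]⟩

end

section
variable {𝒜 : Type u'} [Category.{v'} 𝒜] [Abelian 𝒜]

/-- a morphism from the middle term of an exact sequence to a pure object which is zero on the left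
term is zero if the right term has larger weights -/
theorem zero_of_exact {P : ObjectProperty 𝒜} (hP : P.IsSerreClass) {S : ShortComplex 𝒜}
    (hS : S.Exact) (h3 : P S.X₃) {Z : 𝒜} (hZ : ∀ A, P A → ∀ f : A ⟶ Z, f = 0)
    (φ : S.X₂ ⟶ Z) (hφ : S.f ≫ φ = 0) : φ = 0 := by
  haveI := hS.mono_cokernelDesc
  have h1 : P (cokernel S.f) := P.prop_of_mono (cokernel.desc S.f S.g S.zero) h3
  have h2 : cokernel.desc S.f φ hφ = 0 := hZ _ h1 _
  rw [← cokernel.π_desc S.f φ hφ, h2, comp_zero]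

/-- a composition through the middle term of an exact sequence -/
theorem comp_zero_of_exact {S : ShortComplex 𝒜} (hS : S.Exact) {A Z : 𝒜} (a : A ⟶ S.X₂)
    (ha : a ≫ S.g = 0) (φ : S.X₂ ⟶ Z) (hφ : S.f ≫ φ = 0) : a ≫ φ = 0 := by
  haveI := hS.mono_cokernelDesc
  have h1 : a ≫ cokernel.π S.f = 0 := by
    rw [← cancel_mono (cokernel.desc S.f S.g S.zero), zero_comp, Category.assoc, cokernel.π_desc,
      ha]
  rw [← cokernel.π_desc S.f φ hφ, ← Category.assoc, h1, zero_comp]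

end

section
variable {T : Type u} [Category.{v} T] [HasZeroObject T] [HasShift T ℤ] [Preadditive T]
  [∀ n : ℤ, (shiftFunctor T n).Additive] [Pretriangulated T] [IsTriangulated T]
  {𝒞 : ObjectProperty T}

theorem exists_filt_of_nonneg (hr : Ret 𝒞) {M : T} (hM : Nonneg 𝒞 M) :
    ∃ l : List ℤ, (∀ m ∈ l, 0 ≤ m) ∧ Filt (Deg 𝒞) l M := by
  refine hM (fun M => ∃ l : List ℤ, (∀ m ∈ l, 0 ≤ m) ∧ Filt (Deg 𝒞) l M) ?_ ?_
  · intro X n hX
    refine ⟨[(n : ℤ)], ?_, X⟦(n : ℤ)⟧, 0, 𝟙 _, 0, 0, contractible_distinguished _, ?_,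
      isZero_zero T⟩
    · intro m hm
      rw [List.mem_singleton] at hm
      omega
    · exact hr _ _ hX ⟨Retract.ofIso (shiftIso X n (-n) 0 (by omega) ≪≫
        (shiftFunctorZero T ℤ).app X)⟩
  · rintro Δ hΔ ⟨l, h1, h2⟩ ⟨l', h3, h4⟩
    refine ⟨l ++ l', ?_, Filt.concat (f := Δ.mor₁) (g := Δ.mor₂) (h := Δ.mor₃) hΔ h2 h4⟩
    intro m hm
    rcases List.mem_append.1 hm with hm | hm
    · exact h1 m hm
    · exact h3 m hm

theorem nonneg_ext {Δ : Triangle T} (hΔ : Δ ∈ distTriang T) (h1 : Nonneg 𝒞 Δ.obj₁)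
    (h3 : Nonneg 𝒞 Δ.obj₃) : Nonneg 𝒞 Δ.obj₂ :=
  fun P hP hP' => hP' Δ hΔ (h1 P hP hP') (h3 P hP hP')

theorem nonneg_zero (hr : Ret 𝒞) {X : T} (hX : 𝒞 X) : Nonneg 𝒞 X := by
  intro P hP hP'
  have h1 : 𝒞 (X⟦-(0 : ℤ)⟧) :=
    hr _ _ hX ⟨Retract.ofIso ((shiftFunctorZero' T (-0 : ℤ) (by simp)).app X)⟩
  have h2 : P (X⟦-(0 : ℤ)⟧⟦((0 : ℕ) : ℤ)⟧) := hP _ 0 h1
  -- `P` is closed under isomorphisms
  have h3 : P (0 : T) := by
    have h0 : 𝒞 (0 : T) := hr _ _ hX ⟨⟨0, 0, (isZero_zero T).eq_of_src _ _⟩⟩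
    have h4 := hP _ 0 h0
    have h5 := hP _ 1 h0
    exact hP' (Triangle.mk (0 : (0 : T)⟦((0 : ℕ) : ℤ)⟧ ⟶ 0) (0 : (0 : T) ⟶ (0 : T)⟦((0 : ℕ) : ℤ)⟧) 0)
      (isomorphic_distinguished _ (contractible_distinguished (0 : T)) _
        (Triangle.isoMk _ _ (((shiftFunctor T (((0 : ℕ) : ℤ))).map_isZero (isZero_zero T)).iso (isZero_zero T))
          (Iso.refl _) (((shiftFunctor T (((0 : ℕ) : ℤ))).map_isZero (isZero_zero T)).iso (isZero_zero T))
          ((isZero_zero T).eq_of_tgt _ _) ((isZero_zero T).eq_of_src _ _)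
          (((shiftFunctor T (((0 : ℕ) : ℤ))).map_isZero (isZero_zero T)).eq_of_src _ _))) h4 h4
  let e : X⟦-(0 : ℤ)⟧⟦((0 : ℕ) : ℤ)⟧ ≅ X := shiftIso X (-(0 : ℤ)) ((0 : ℕ) : ℤ) 0 (by simp) ≪≫
    (shiftFunctorZero T ℤ).app X
  exact hP' (Triangle.mk e.hom (0 : X ⟶ 0) 0)
    (isomorphic_distinguished _ (contractible_distinguished X) _
      (Triangle.isoMk _ _ e (Iso.refl _) (Iso.refl _) (by simp [Triangle.mk, contractibleTriangle])
        ((isZero_zero T).eq_of_tgt _ _) ((isZero_zero T).eq_of_src _ _))) h2 h3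

end

end Pool.Agent.W492.VN
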